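import Pool.Agent.Lib.helper21.PR

set_option autoImplicit false
set_option linter.unusedSectionVars false

namespace Pool.Agent.H.MP_fdcf9c_lc

open Pool.Agent.Lib.helper21.PR Finset Polynomial

variable {α β : Type} [Primcodable α] [Primcodable β]

theorem re_of {Q : α × ℕ → Bool} (h : Computable Q) : REPred fun a => ∃ n, Q (a, n) = true :=
  (Partrec.rfind (p := fun a n => Part.some (Q (a, n))) h.partrec).dom_re.of_eq fun a =>
    Nat.rfind_dom.trans (by simp)

theorem rcomp {p : β → Prop} {f : α → β} (h : REPred p) (hf : Computable f) :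
    REPred fun a => p (f a) := Partrec.comp h hf

theorem rand {p q : α → Prop} (hp : REPred p) (hq : REPred q) : REPred fun a => p a ∧ q a := by
  obtain ⟨N, a1, a2, a3, a4⟩ := re_bool hp
  obtain ⟨M, b1, b2, b3, b4⟩ := re_bool hq
  refine (re_of (Q := fun x => N x.1 x.2 && M x.1 x.2) (by fun_prop)).of_eq fun a =>
    ⟨fun ⟨n, h⟩ => ?_, fun ⟨h, k⟩ => ?_⟩
  · simp only [Bool.and_eq_true] at h
    exact ⟨a2 _ _ h.1, b2 _ _ h.2⟩
  · obtain ⟨s, hs⟩ := a4 a h
    obtain ⟨t, ht⟩ := b4 a k
    exact ⟨s + t, by simp [a3 a s _ (Nat.le_add_right s t) hs, b3 a t _ (Nat.le_add_left t s) ht]⟩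

theorem ror {p q : α → Prop} (hp : REPred p) (hq : REPred q) : REPred fun a => p a ∨ q a := by
  obtain ⟨N, a1, a2, -, a4⟩ := re_bool hp
  obtain ⟨M, b1, b2, -, b4⟩ := re_bool hq
  refine (re_of (Q := fun x => N x.1 x.2 || M x.1 x.2) (by fun_prop)).of_eq fun a =>
    ⟨fun ⟨n, h⟩ => ?_, fun h => ?_⟩
  · simp only [Bool.or_eq_true] at h
    exact h.imp (a2 _ _) (b2 _ _)
  · rcases h with h | h
    exacts [(a4 a h).imp fun _ h => by simp [h], (b4 a h).imp fun _ h => by simp [h]]

theorem runif {P : α → β → Prop} (h : REPred fun p : α × β => P p.1 p.2) :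
    ∃ Q : α × ℕ → Option β, Primrec Q ∧ (∀ a n b, Q (a, n) = some b → P a b) ∧
      ∀ a b, P a b → ∃ n, Q (a, n) = some b := by
  obtain ⟨N, a1, a2, -, a4⟩ := re_bool h
  refine ⟨fun x => (Encodable.decode (α := β) x.2.unpair.1).bind fun b =>
    bif N (x.1, b) x.2.unpair.2 then some b else none, by fun_prop, fun a n b e => ?_,
    fun a b e => ?_⟩
  · obtain ⟨c, -, e⟩ := Option.bind_eq_some_iff.1 e
    cases k : N (a, c) n.unpair.2 <;> simp [k] at e
    exact e ▸ a2 _ _ k
  · obtain ⟨t, ht⟩ := a4 (a, b) e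
    exact ⟨Nat.pair (Encodable.encode b) t, by simp [ht]⟩

theorem rex {P : α → β → Prop} (h : REPred fun p : α × β => P p.1 p.2) :
    REPred fun a => ∃ b, P a b := by
  obtain ⟨Q, a1, a2, a3⟩ := runif h
  refine (re_of (Q := fun x => (Q x).isSome) (by fun_prop)).of_eq fun a =>
    ⟨fun ⟨n, h⟩ => (Option.isSome_iff_exists.1 h).imp (a2 a n), fun ⟨b, h⟩ =>
      (a3 a b h).imp fun n h => by simp [h]⟩

theorem rsel {P : α → β → Prop} (h : REPred fun p : α × β => P p.1 p.2) (k : ∀ a, ∃ b, P a b) :
    ∃ f : α → β, Computable f ∧ ∀ a, P a (f a) := by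
  obtain ⟨Q, a1, a2, a3⟩ := runif h
  have d : ∀ a, (Nat.rfindOpt fun n => Q (a, n)).Dom := fun a => by
    obtain ⟨b, hb⟩ := k a
    obtain ⟨n, hn⟩ := a3 a b hb
    exact Nat.rfindOpt_dom.2 ⟨n, b, hn⟩
  refine ⟨fun a => Part.get _ (d a), (Partrec.rfindOpt (f := fun a n => Q (a, n))
    a1.to_comp).of_eq_tot fun a => Part.get_mem _, fun a => ?_⟩
  obtain ⟨n, hn⟩ := Nat.rfindOpt_spec (Part.get_mem (d a))
  exact a2 a n _ hn

theorem rball {P : α → ℕ → Prop} {m : α → ℕ} (h : REPred fun p : α × ℕ => P p.1 p.2)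
    (hm : Computable m) : REPred fun a => ∀ k < m a, P a k := by
  obtain ⟨N, a1, a2, a3, a4⟩ := re_bool h
  refine (rcomp (re_of (α := α × ℕ) (Q := fun x => cd (∀ k < x.1.2, N (x.1.1, k) x.2 = true))
    (c_prim (by fun_prop))) (f := fun a => (a, m a)) (by fun_prop)).of_eq fun a =>
      ⟨fun ⟨n, h⟩ k l => a2 _ _ (cd_true.1 h k l), fun h => ?_⟩
  choose! t ht using fun k l => a4 (a, k) (h k l)
  exact ⟨(range (m a)).sup t, cd_true.2 fun k l => a3 _ _ _ (le_sup (mem_range.2 l)) (ht k l)⟩

theorem rprim {p : α → Prop} (h : Primrec fun a => cd (p a)) : REPred p :=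
  (pred h).computablePred.to_re

theorem req {f g : α → β} (hf : Computable f) (hg : Computable g) : REPred fun a => f a = g a :=
  rcomp (p := fun x : β × β => x.1 = x.2) (rprim (by fun_prop)) (hf.pair hg)

theorem rne {f g : α → β} (hf : Computable f) (hg : Computable g) : REPred fun a => f a ≠ g a :=
  rcomp (p := fun x : β × β => x.1 ≠ x.2) (rprim (by fun_prop)) (hf.pair hg)

class CR (K : Type) [CommSemiring K] [Primcodable K] : Prop where
  add : Computable fun p : K × K => p.1 + p.2
  mul : Computable fun p : K × K => p.1 * p.2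

instance : CR ℕ := ⟨by fun_prop, by fun_prop⟩

section
variable {K : Type} [CommSemiring K] [Primcodable K] [CR K] {f g : α → K} {m : α → ℕ}

@[fun_prop] theorem c_add (hf : Computable f) (hg : Computable g) :
    Computable fun a => f a + g a := CR.add.comp (hf.pair hg)
@[fun_prop] theorem c_mul (hf : Computable f) (hg : Computable g) :
    Computable fun a => f a * g a := CR.mul.comp (hf.pair hg)
@[fun_prop] theorem c_sum {f : α → ℕ → K} (hf : Computable fun p : α × ℕ => f p.1 p.2)
    (hm : Computable m) : Computable fun a => ∑ v ∈ range (m a), f a v :=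
  (Computable.nat_rec (h := fun a p => p.2 + f a p.1) hm (.const 0)
    (by unfold Computable₂; fun_prop)).of_eq fun a => by
      induction m a with
      | zero => rfl
      | succ k ih => rw [sum_range_succ, ← ih]
@[fun_prop] theorem c_prod {f : α → ℕ → K} (hf : Computable fun p : α × ℕ => f p.1 p.2)
    (hm : Computable m) : Computable fun a => ∏ v ∈ range (m a), f a v :=
  (Computable.nat_rec (h := fun a p => p.2 * f a p.1) hm (.const 1)
    (by unfold Computable₂; fun_prop)).of_eq fun a => by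
      induction m a with
      | zero => rfl
      | succ k ih => rw [prod_range_succ, ← ih]
@[fun_prop] theorem c_pow (hf : Computable f) (hm : Computable m) :
    Computable fun a => f a ^ m a :=
  (c_prod (f := fun a _ => f a) (by fun_prop) hm).of_eq fun a => by simp
end

variable {K : Type} [Field K] [Primcodable K] [CR K]

def CP (f : α → K[X]) : Prop :=
  (Computable fun p : α × K => (f p.1).eval p.2) ∧
    ∃ B : α → ℕ, Computable B ∧ ∀ a, (f a).natDegree ≤ B a

variable {f g : α → K[X]} {m : α → ℕ}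

theorem pC {k : α → K} (h : Computable k) : CP fun a => C (k a) :=
  ⟨by simp only [eval_C]; fun_prop, fun _ => 0, .const 0, by simp⟩
theorem pX : CP fun _ : α => (X : K[X]) :=
  ⟨by simp only [eval_X]; fun_prop, fun _ => 1, .const 1, by simp⟩
theorem padd : CP f → CP g → CP fun a => f a + g a
  | ⟨a, B, b, c⟩, ⟨d, D, e, k⟩ => ⟨by simp only [eval_add]; fun_prop, fun a => B a + D a,
    by fun_prop, fun a => (natDegree_add_le _ _).trans
      (max_le ((c a).trans (Nat.le_add_right _ _)) ((k a).trans (Nat.le_add_left _ _)))⟩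
theorem pmul : CP f → CP g → CP fun a => f a * g a
  | ⟨a, B, b, c⟩, ⟨d, D, e, k⟩ => ⟨by simp only [eval_mul]; fun_prop, fun a => B a + D a,
    by fun_prop, fun a => natDegree_mul_le.trans (add_le_add (c a) (k a))⟩
theorem psub (hf : CP f) (hg : CP g) : CP fun a => f a - g a := by
  simpa [sub_eq_add_neg] using padd hf (pmul (pC (.const (-1))) hg)
theorem pcomp : CP f → CP g → CP fun a => (f a).comp (g a)
  | ⟨a, B, b, c⟩, ⟨d, D, e, k⟩ => ⟨by
      simp only [eval_comp]; exact a.comp (Computable.fst.pair d), fun a => B a * D a,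
    by fun_prop, fun a => natDegree_comp_le.trans (Nat.mul_le_mul (c a) (k a))⟩
theorem psum {f : α → ℕ → K[X]} (hm : Computable m) :
    (CP fun p : α × ℕ => f p.1 p.2) → CP fun a => ∑ v ∈ range (m a), f a v
  | ⟨a, B, b, c⟩ => ⟨by
      simp only [eval_finsetSum]
      exact c_sum (a.comp (g := fun p : (α × K) × ℕ => ((p.1.1, p.2), p.1.2)) (by fun_prop))
        (by fun_prop), fun a => ∑ v ∈ range (m a), B (a, v), c_sum b hm,
    fun a => natDegree_sum_le_of_forall_le _ _ fun v l =>
      (c (a, v)).trans (single_le_sum (f := fun v => B (a, v)) (fun _ _ => Nat.zero_le _) l)⟩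
theorem pprod {f : α → ℕ → K[X]} (hm : Computable m) :
    (CP fun p : α × ℕ => f p.1 p.2) → CP fun a => ∏ v ∈ range (m a), f a v
  | ⟨a, B, b, c⟩ => ⟨by
      simp only [eval_prod]
      exact c_prod (a.comp (g := fun p : (α × K) × ℕ => ((p.1.1, p.2), p.1.2)) (by fun_prop))
        (by fun_prop), fun a => ∑ v ∈ range (m a), B (a, v), c_sum b hm,
    fun a => (natDegree_prod_le _ _).trans (sum_le_sum fun v _ => c (a, v))⟩
theorem ppow (hm : Computable m) : CP f → CP fun a => f a ^ m a
  | ⟨a, B, b, c⟩ => ⟨by simp only [eval_pow]; fun_prop, fun a => m a * B a,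
    by fun_prop, fun a => natDegree_pow_le.trans (Nat.mul_le_mul_left _ (c a))⟩
theorem peval {k : α → K} (h : Computable k) (hf : CP f) : Computable fun a => (f a).eval (k a) :=
  hf.1.comp (Computable.id.pair h)

theorem peq [Infinite K] : CP f → CP g → REPred fun a => f a = g a
  | ⟨a, B, b, c⟩, ⟨d, D, e, k⟩ => by
    obtain ⟨s, s1, s2⟩ := rsel (P := fun (n : ℕ) (x : K) => n < Encodable.encode x)
      (rprim (by fun_prop)) fun n => by
        by_contra! h
        exact not_injective_infinite_finite (fun x => (⟨_, Nat.lt_succ_of_le (h x)⟩ : Fin _))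
          fun x y e => Encodable.encode_injective (Fin.mk.inj e)
    let μ : ℕ → K := fun n => Nat.rec 0 (fun _ x => s (Encodable.encode x)) n
    have μ1 : Computable μ := Computable.nat_rec (h := fun _ p => s (Encodable.encode p.2))
      .id (.const 0) (by unfold Computable₂; fun_prop)
    have μ2 : μ.Injective := Function.Injective.of_comp (f := Encodable.encode)
      (strictMono_nat_of_lt_succ fun n => s2 _).injective
    refine (rball (P := fun a n => (f a).eval (μ n) = (g a).eval (μ n))
      (m := fun a => B a + D a + 1) (req (a.comp (g := fun p : α × ℕ => (p.1, μ p.2))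
        (by fun_prop)) (d.comp (g := fun p : α × ℕ => (p.1, μ p.2)) (by fun_prop)))
      (by fun_prop)).of_eq fun a => ⟨fun h => ?_, fun h _ _ => by rw [h]⟩
    refine eq_of_natDegree_lt_card_of_eval_eq _ _ (f := fun i : Fin (B a + D a + 1) => μ i)
      (μ2.comp Fin.val_injective) (fun i => h i i.2) ?_
    have := c a
    have := k a
    simp only [Fintype.card_fin]
    omega

end Pool.Agent.H.MP_fdcf9c_lc
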