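import Pool.Agent.H.MP_fdcf9c_lc.A

set_option autoImplicit false
set_option linter.unusedSectionVars false

namespace Pool.Agent.H.MP_fdcf9c_lc

open Finset Polynomial

def dg (N x a : ℕ) : ℕ := x / N ^ a % N

theorem dg_ex {N n : ℕ} (τ : ℕ → ℕ) (h : ∀ a < n, τ a < N) :
    ∃ x < N ^ n, ∀ a < n, dg N x a = τ a :=
  ⟨_, (finFunctionFinEquiv fun a : Fin n => (⟨τ a, h a a.2⟩ : Fin N)).2, fun a l => by
    have := finFunctionFinEquiv_symm_apply_val
      (finFunctionFinEquiv fun a : Fin n => (⟨τ a, h a a.2⟩ : Fin N)) ⟨a, l⟩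
    rw [Equiv.symm_apply_apply] at this
    exact this.symm⟩

theorem exl {β : Type} (d : β) (n : ℕ) (R : ℕ → β → Prop) (h : ∀ t < n, ∃ v, R t v) :
    ∃ l : List β, l.length = n ∧ ∀ t < n, R t (l.getD t d) := by
  choose f hf using h
  exact ⟨List.ofFn fun i : Fin n => f i i.2, by simp, fun t l => by simpa [l] using hf t l⟩

noncomputable def pl {R : Type} [CommSemiring R] (l : List R) : R[X] :=
  ∑ k ∈ range l.length, C (l.getD k 0) * X ^ k

theorem pl_eq {R : Type} [CommSemiring R] (c : ℕ → R) (n : ℕ) :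
    ∃ l : List R, l.length = n ∧ pl l = ∑ k ∈ range n, C (c k) * X ^ k := by
  obtain ⟨l, a, b⟩ := exl 0 n (fun t v => v = c t) fun t _ => ⟨_, rfl⟩
  exact ⟨l, a, by rw [pl, a]; exact sum_congr rfl fun k l => by rw [b k (mem_range.1 l)]⟩

theorem pl_surj {R : Type} [CommSemiring R] (p : R[X]) : ∃ l, pl l = p :=
  (pl_eq p.coeff (p.natDegree + 1)).imp fun _ h => h.2.trans p.as_sum_range_C_mul_X_pow.symm

theorem pl_monic {R : Type} [CommSemiring R] {p : R[X]} (h : p.Monic) :
    ∃ l, l.length = p.natDegree ∧ X ^ l.length + pl l = p :=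
  (pl_eq p.coeff p.natDegree).imp fun _ k => ⟨k.1, by rw [k.1, k.2, ← h.as_sum]⟩

theorem vand {M ι : Type} [Field M] [Fintype ι] {D : ℕ} {e : ι → ℕ} (he : ∀ i, e i < D)
    {y : Fin D → M} (hy : y.Injective) (c : ι → M) (h : ∀ j, ∑ i, c i * y j ^ e i = 0) (k : ℕ) :
    ∑ i, (if e i = k then c i else 0) = 0 := by
  have : ∑ i, C (c i) * X ^ e i = 0 := eq_zero_of_degree_lt_of_eval_index_eq_zero univ hy.injOn
    ((degree_sum_le _ _).trans_lt ((Finset.sup_lt_iff (by simp)).2 fun i _ =>
      (degree_C_mul_X_pow_le _ _).trans_lt (by simpa using he i)))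
    fun j _ => by simpa [eval_finsetSum] using h j
  simpa [coeff_C_mul_X_pow, eq_comm] using congrArg (coeff · k) this

theorem dens {F M : Type} [Field F] [Field M] [Algebra F M] [Infinite F] (z : ℕ → M) (N : ℕ)
    (hz : ∀ a < N, ∀ b < N, z a = z b → a = b) : ∃ g : F[X], ∀ D < N + 1, ∀ x < N ^ (D * D),
      (∀ a < D * D, ∀ b < D * D, dg N x a = dg N x b → a = b) → (Matrix.of fun a n : Fin (D * D) =>
        z (dg N x a) ^ (n % D : ℕ) * aeval (z (dg N x a)) g ^ (n / D : ℕ)).det ≠ 0 := by
  classical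
  let Φ : ℕ → ℕ → MvPolynomial (Fin N) M := fun D x => (Matrix.of fun a n : Fin (D * D) =>
    MvPolynomial.C (z (dg N x a) ^ (n % D : ℕ)) * (∑ k : Fin N, MvPolynomial.X k *
      MvPolynomial.C (z (dg N x a) ^ (k : ℕ))) ^ (n / D : ℕ)).det
  have ev : ∀ D x c, MvPolynomial.eval c (Φ D x) = (Matrix.of fun a n : Fin (D * D) =>
      z (dg N x a) ^ (n % D : ℕ) * (∑ k : Fin N, c k * z (dg N x a) ^ (k : ℕ)) ^
        (n / D : ℕ)).det := fun D x c => by
    rw [RingHom.map_det]
    congr 1
    ext a n
    simp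
  have inf : (Set.range (algebraMap F M)).Infinite :=
    Set.infinite_range_of_injective (algebraMap F M).injective
  let κ := fun n => (inf.natEmbedding _ n : M)
  have hκ : κ.Injective := Subtype.val_injective.comp (inf.natEmbedding _).injective
  have ne : ∀ D < N + 1, ∀ x, (∀ a < D * D, ∀ b < D * D, dg N x a = dg N x b → a = b) →
      Φ D x ≠ 0 := fun D hD x hx e => by
    let t : ℕ → M := fun c => if h : ∃ a < D * D, dg N x a = c then κ (h.choose / D) else 0
    let G := Lagrange.interpolate (range N) z t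
    have i : Set.InjOn z (range N) := fun a p b q => hz a (by simpa using p) b (by simpa using q)
    have hG : 0 < N → G.natDegree < N := fun h => by
      by_cases k : G = 0
      · simpa [k]
      · exact (natDegree_lt_iff_degree_lt k).2 ((Lagrange.degree_interpolate_lt t i).trans_eq (by simp))
    have := ev D x fun k => G.coeff k
    rw [e, map_zero, eq_comm, ← Matrix.exists_mulVec_eq_zero_iff] at this
    obtain ⟨v, v0, hv⟩ := this
    refine v0 (funext fun n₀ => ?_)
    have D0 : 0 < D := Nat.pos_of_mul_pos_left n₀.pos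
    have lt : ∀ a, dg N x a < N := fun a => Nat.mod_lt _ (by omega)
    have k1 : ∀ a < D * D, ∑ k : Fin N, G.coeff k * z (dg N x a) ^ (k : ℕ) = κ (a / D) :=
      fun a l => by
        have h : ∃ b < D * D, dg N x b = dg N x a := ⟨a, l, rfl⟩
        rw [Fin.sum_univ_eq_sum_range (fun k => G.coeff k * z (dg N x a) ^ k),
          ← eval_eq_sum_range' (hG (by omega)),
          Lagrange.eval_interpolate_at_node t i (mem_range.2 (lt a))]
        simp only [t]
        rw [dif_pos h, hx _ h.choose_spec.1 a l h.choose_spec.2]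
    have b : ∀ j l : Fin D, j + D * l < D * D := fun j l => by
      have := Nat.mul_le_mul_left D (Nat.succ_le_of_lt l.2)
      have := j.2
      rw [Nat.mul_succ] at *
      omega
    have k2 := vand (e := fun n : Fin (D * D) => n / D) (y := fun l : Fin D => κ l)
      (fun n => Nat.div_lt_of_lt_mul n.2) (hκ.comp Fin.val_injective)
      (fun n => if n % D = (n₀ % D : ℕ) then v n else 0) (fun l => by
        have := vand (e := fun n : Fin (D * D) => n % D) (y := fun j : Fin D =>
          z (dg N x (j + D * l))) (fun n => Nat.mod_lt _ D0) (fun i j e => Fin.ext (by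
            have := hx _ (b i l) _ (b j l) (hz _ (lt _) _ (lt _) e)
            omega)) (fun n => v n * κ l ^ (n / D : ℕ)) (fun j => by
              have := congrFun hv ⟨_, b j l⟩
              simp only [Matrix.mulVec, dotProduct, Matrix.of_apply, k1 _ (b j l),
                Nat.add_mul_div_left _ _ D0, Nat.div_eq_of_lt j.2, zero_add] at this
              exact (sum_congr rfl fun n _ => by ring).trans this) (n₀ % D)
        simpa using this) (n₀ / D)
    rw [sum_eq_single n₀ (fun n _ h => by
      split_ifs with p q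
      exacts [(h (Fin.ext (by rw [← Nat.div_add_mod n D, p, q, Nat.div_add_mod]))).elim, rfl, rfl])
      (by simp)] at k2
    simpa using k2
  have P : ∏ D ∈ range (N + 1), ∏ x ∈ range (N ^ (D * D)) with
      ∀ a < D * D, ∀ b < D * D, dg N x a = dg N x b → a = b, Φ D x ≠ 0 :=
    prod_ne_zero_iff.2 fun D h => prod_ne_zero_iff.2 fun x k =>
      ne D (mem_range.1 h) x (mem_filter.1 k).2
  have P' := mt (MvPolynomial.funext_set (fun _ => Set.range (algebraMap F M)) fun _ => inf) P
  push Not at P'
  obtain ⟨c, hc, h⟩ := P'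
  choose c' hc' using fun k => hc k trivial
  refine ⟨∑ k : Fin N, C (c' k) * X ^ (k : ℕ), fun D hD x hx k => ?_⟩
  simp only [map_zero, map_prod, prod_ne_zero_iff] at h
  have := h D (mem_range.2 hD) x (mem_filter.2 ⟨mem_range.2 hx, k⟩)
  simpa [ev, hc'] using this

end Pool.Agent.H.MP_fdcf9c_lc
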