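import Pool.Agent.H.MP_fdcf9c_lc.B

set_option autoImplicit false
set_option linter.unusedSectionVars false

namespace Pool.Agent.H.MP_fdcf9c_lc

open Pool.Agent.Lib.helper21.PR Finset Polynomial IntermediateField

variable {F K : Type} [Field F] [Field K] [Algebra F K]

variable (K) in
noncomputable def pm (l : List F) : K[X] := (pl l).map (algebraMap F K)

variable (F) in
def Ind (D : ℕ) (a b : K) : Prop :=
  ∀ (s : Finset (Fin 2 →₀ ℕ)) (p : (Fin 2 →₀ ℕ) → F), (∀ d ∈ s, d 0 < D ∧ d 1 < D) →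
    ∑ d ∈ s, algebraMap F K (p d) * (a ^ d 0 * b ^ d 1) = 0 → ∀ d ∈ s, p d = 0

variable (F) in
def Q (u : ℕ → K) (i : ℕ) (θ b : K) : Prop :=
  (∀ s < i, ∃ p : List F, u s = (pm K p).eval θ) ∧ ∃ g : List F, b = (pm K g).eval θ ∧
    ∃ h : List F, 0 < h.length ∧ ∃ r : List (List F),
      (∃ q : List K, ∏ c ∈ range r.length, (C θ - pm K (r.getD c [])) =
        pl q * (X ^ h.length + pm K h)) ∧ ∀ D < r.length + 1, ∀ x < r.length ^ (D * D),
      (∃ a, a < D * D ∧ ∃ a', a' < D * D ∧ a ≠ a' ∧ dg r.length x a = dg r.length x a') ∨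
        ∀ m < D * D, ∃ w : List (List K), ∀ n < D * D, ∃ q : List K,
          ∑ a ∈ range (D * D), pl (w.getD a []) * (pm K (r.getD (dg r.length x a) []) ^ (n % D) *
            ((pm K g).comp (pm K (r.getD (dg r.length x a) []))) ^ (n / D)) =
              C (if m = n then 1 else 0) + pl q * (X ^ h.length + pm K h)

theorem ev_pm (l : List F) (θ : K) : (pm K l).eval θ = aeval θ (pl l) := by
  rw [pm, eval_map_algebraMap]

theorem sound [Algebra.IsSeparable F K] {u : ℕ → K} {i : ℕ} {θ b : K} (H : Q F u i θ b) {s D : ℕ}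
    (hs : s < i) (hD : D * D ≤ (minpoly F (u s)).natDegree) : Ind F D θ b := by
  classical
  obtain ⟨h1, g, rfl, h, h0, r, ⟨q, hq⟩, hC⟩ := H
  let Ω := AlgebraicClosure K
  have I : ∀ x : K, IsIntegral F x := Algebra.IsSeparable.isIntegral F
  have dn : D * D ≤ (minpoly F θ).natDegree := by
    obtain ⟨p, e⟩ := h1 s hs
    have := adjoin.finiteDimensional (I θ)
    have m : u s ∈ F⟮θ⟯ := by
      rw [e, ev_pm]
      exact algebra_adjoin_le_adjoin F _ (aeval_mem_adjoin_singleton F θ)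
    rw [← adjoin.finrank (I θ)]
    rw [show u s = algebraMap F⟮θ⟯ K ⟨_, m⟩ from rfl,
      minpoly.algebraMap_eq (algebraMap F⟮θ⟯ K).injective] at hD
    exact hD.trans (minpoly.natDegree_le _)
  obtain ⟨y, hy⟩ : ∃ y : Ω, aeval y (X ^ h.length + pl h) = 0 := by
    have : (pl h).degree < h.length := (degree_sum_le _ _).trans_lt
      ((Finset.sup_lt_iff (by simp)).2 fun k l =>
        (degree_C_mul_X_pow_le _ _).trans_lt (by simpa using l))
    refine IsAlgClosed.exists_aeval_eq_zero _ _ ?_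
    rw [degree_add_eq_left_of_degree_lt (by simpa), degree_X_pow]
    simpa using h0.ne'
  let E := fun σ : K →ₐ[F] Ω => eval₂RingHom (σ : K →+* Ω) y
  have E1 : ∀ σ (l : List F), E σ (pm K l) = aeval y (pl l) := fun σ l => by
    simp [E, pm, eval₂_map, aeval_def]
  have E2 : ∀ σ, E σ (X ^ h.length + pm K h) = 0 := fun σ => by
    rw [← hy, map_add, E1]
    simp [E]
  have R : ∀ z ∈ (minpoly F θ).rootSet Ω, ∃ c < r.length, aeval y (pl (r.getD c [])) = z ∧
      ∃ σ : K →ₐ[F] Ω, σ θ = z := fun z hz => by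
    obtain ⟨σ, e⟩ := (Algebra.IsAlgebraic.range_eval_eq_rootSet_minpoly_of_splits Ω
      (fun x => IsAlgClosed.splits _) θ).ge hz
    have := congrArg (E σ) hq
    rw [map_mul, E2, mul_zero, map_prod, prod_eq_zero_iff] at this
    obtain ⟨c, l, k⟩ := this
    rw [map_sub, E1, sub_eq_zero] at k
    exact ⟨c, mem_range.1 l, by rw [← k, ← e]; simp [E], σ, e⟩
  obtain ⟨z⟩ : Nonempty (Fin (D * D) ↪ (minpoly F θ).rootSet Ω) :=
    Function.Embedding.nonempty_of_card_le (by
      rwa [card_rootSet_eq_natDegree (Algebra.IsSeparable.isSeparable F θ) (IsAlgClosed.splits _),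
        Fintype.card_fin])
  choose c c1 c2 σ hσ using fun a => R _ (z a).2
  have ci : c.Injective := fun a b e => z.injective (Subtype.ext (by rw [← c2, e, c2]))
  obtain ⟨x, x1, x2⟩ := dg_ex (N := r.length) (n := D * D)
    (fun a => if l : a < D * D then c ⟨a, l⟩ else 0) fun a l => by simpa [l] using c1 _
  have x3 : ∀ a : Fin (D * D), dg r.length x a = c a := fun a => by simp [x2]
  have DN : D * D ≤ r.length := by
    simpa using Fintype.card_le_of_injective (fun a => (⟨c a, c1 a⟩ : Fin _))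
      fun a b e => ci (Fin.mk.inj e)
  rcases hC D (by have := Nat.le_mul_self D; omega) x x1 with ⟨a, l, a', l', n, e⟩ | hC
  · exact (n (Fin.mk.inj (ci ((x3 ⟨a, l⟩).symm.trans (e.trans (x3 ⟨a', l'⟩)))))).elim
  intro t p ht e d hd
  have b : ∀ d ∈ t, d 0 + D * d 1 < D * D := fun d hd => by
    have := Nat.mul_le_mul_left D (Nat.succ_le_of_lt (ht d hd).2)
    have := (ht d hd).1
    rw [Nat.mul_succ] at *
    omega
  have md : ∀ d ∈ t, (d 0 + D * d 1) % D = d 0 ∧ (d 0 + D * d 1) / D = d 1 := fun d hd => by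
    have := (ht d hd).1
    simp [Nat.add_mul_div_left _ _ (by omega : 0 < D), Nat.mod_eq_of_lt this, Nat.div_eq_of_lt this]
  obtain ⟨w, hw⟩ := hC _ (b d hd)
  let ι := IsScalarTower.toAlgHom F K Ω
  have k : ∀ d' ∈ t, ∑ a : Fin (D * D), E ι (pl (w.getD a [])) * ((z a : Ω) ^ d' 0 *
      aeval (z a : Ω) (pl g) ^ d' 1) = if d' = d then 1 else 0 := fun d' hd' => by
    obtain ⟨q, hq⟩ := hw _ (b d' hd')
    have := congrArg (E ι) hq
    rw [map_add, map_mul, E2, mul_zero, add_zero, sum_range, map_sum, (md d' hd').1,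
      (md d' hd').2] at this
    convert this using 2
    · rw [map_mul, map_mul, map_pow, map_pow, E1, x3, c2, pm, pm, ← map_comp]
      simp [-List.getD_eq_getElem?_getD, E, eval₂_map, ← aeval_def, aeval_comp, c2]
    · have : d' = d ↔ d 0 + D * d 1 = d' 0 + D * d' 1 := ⟨fun e => by rw [e], fun e => by
        ext i
        fin_cases i
        exacts [by simpa [e, md d' hd'] using (md d hd).1, by simpa [e, md d' hd'] using (md d hd).2]⟩
      by_cases e : d' = d <;> simp [E, ← this, e]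
  have k2 : ∀ a, ∑ d ∈ t, algebraMap F Ω (p d) * ((z a : Ω) ^ d 0 *
      aeval (z a : Ω) (pl g) ^ d 1) = 0 := fun a => by
    simpa [ev_pm, ← hσ a, aeval_algHom_apply] using congrArg (σ a) e
  have : algebraMap F Ω (p d) = 0 := by
    calc _ = ∑ d' ∈ t, algebraMap F Ω (p d') * if d' = d then 1 else 0 := by simp [hd]
      _ = ∑ a : Fin (D * D), E ι (pl (w.getD a [])) * ∑ d ∈ t, algebraMap F Ω (p d) *
          ((z a : Ω) ^ d 0 * aeval (z a : Ω) (pl g) ^ d 1) := by
        rw [sum_congr rfl fun _ _ => mul_sum _ _ _, sum_comm]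
        exact sum_congr rfl fun d' hd' => by
          rw [← k d' hd', mul_sum]
          exact sum_congr rfl fun a _ => by ring
      _ = 0 := by simp [k2]
  simpa using this

theorem exQ [Algebra.IsSeparable F K] [Infinite F] (u : ℕ → K) (i : ℕ) :
    ∃ θ b, Q F u i θ b := by
  classical
  have I : ∀ x : K, IsIntegral F x := Algebra.IsSeparable.isIntegral F
  let L := adjoin F (u '' {s | s < i})
  have : Finite (u '' {s | s < i}) := ((Set.finite_lt_nat i).image u).to_subtype
  have : FiniteDimensional F L := finiteDimensional_adjoin fun x _ => I x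
  let pa := Field.powerBasisOfFiniteOfSeparable F L
  let θ : K := pa.gen
  let M := (minpoly F θ).SplittingField
  have sp := Algebra.IsSeparable.isSeparable F θ
  have : IsGalois F M := IsGalois.of_separable_splitting_field sp
  let pb := Field.powerBasisOfFiniteOfSeparable F M
  let l := ((minpoly F θ).map (algebraMap F M)).roots.toList
  have nd : l.Nodup := by
    rw [← Multiset.coe_nodup, Multiset.coe_toList]
    exact nodup_roots (Separable.map sp)
  have fp : (minpoly F θ).map (algebraMap F M) = ∏ c ∈ range l.length, (X - C (l.getD c 0)) := by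
    rw [(SplittingField.splits _).eq_prod_roots_of_monic ((minpoly.monic (I θ)).map _), prod_range,
      ← Multiset.coe_toList (roots _), Multiset.map_coe, Multiset.prod_coe,
      ← Fin.prod_univ_fun_getElem]
    exact prod_congr rfl fun c _ => by rw [List.getD_eq_getElem _ _ c.2]
  obtain ⟨g, hg⟩ := dens (F := F) (l.getD · 0) l.length fun a p b q e => by
    simpa [p, q, nd.getElem_inj_iff] using e
  obtain ⟨g, rfl⟩ := pl_surj g
  obtain ⟨h, h1, h2⟩ := pl_monic (minpoly.monic pb.isIntegral_gen)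
  have S : ∀ z : M, ∃ v, aeval pb.gen (pl v) = z := fun z => by
    obtain ⟨p, e⟩ := pb.exists_eq_aeval' z
    obtain ⟨v, rfl⟩ := pl_surj p
    exact ⟨v, e.symm⟩
  obtain ⟨r, r1, r2⟩ := exl [] l.length (fun c v => aeval pb.gen (pl v) = l.getD c 0) fun c _ => S _
  let H : K[X] := X ^ h.length + pm K h
  have T0 : ∀ p : F[X], aeval (AdjoinRoot.root H) p = AdjoinRoot.mk H (p.map (algebraMap F K)) :=
    fun p => (aeval_map_algebraMap K _ p).symm.trans (AdjoinRoot.aeval_eq _)
  let ρ := pb.lift (AdjoinRoot.root H) (by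
    rw [T0, ← h2, AdjoinRoot.mk_eq_zero]
    simp [H, pm])
  have T : ∀ p : F[X], ρ (aeval pb.gen p) = AdjoinRoot.mk H (p.map (algebraMap F K)) := fun p => by
    rw [PowerBasis.lift_aeval, T0]
  have T1 : ∀ c < l.length, AdjoinRoot.mk H (pm K (r.getD c [])) = ρ (l.getD c 0) := fun c p => by
    rw [← r2 c p, T, pm]
  refine ⟨θ, _, fun s p => ?_, g, rfl, h, h1 ▸ minpoly.natDegree_pos pb.isIntegral_gen, r, ?_,
    fun D hD x hx => ?_⟩
  · obtain ⟨p, e⟩ := pa.exists_eq_aeval' ⟨u s, subset_adjoin _ _ ⟨s, p, rfl⟩⟩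
    obtain ⟨v, rfl⟩ := pl_surj p
    exact ⟨v, by rw [ev_pm]; exact (congrArg L.val e).trans (aeval_algHom_apply L.val _ _).symm⟩
  · obtain ⟨q, e⟩ : H ∣ ∏ c ∈ range r.length, (C θ - pm K (r.getD c [])) := by
      have := congrArg (eval₂RingHom (ρ : M →+* _) (AdjoinRoot.of H θ)) fp
      rw [coe_eval₂RingHom, eval₂_map, AlgHom.comp_algebraMap, ← aeval_def,
        ← AdjoinRoot.algebraMap_eq, aeval_algebraMap_apply, minpoly.aeval, map_zero,
        eval₂_finsetProd] at this
      rw [← AdjoinRoot.mk_eq_zero, map_prod, this, r1]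
      exact prod_congr rfl fun c p => by rw [map_sub, T1 c (mem_range.1 p)]; simp
    obtain ⟨q, rfl⟩ := pl_surj q
    exact ⟨q, e.trans (mul_comm _ _)⟩
  rw [r1] at *
  refine or_iff_not_imp_left.2 fun n m hm => ?_
  have k := hg D hD x hx fun a p b q e => by_contra fun d => n ⟨a, p, b, q, d, e⟩
  have k := Matrix.nonsing_inv_mul _ (Ne.isUnit k)
  generalize hA : (_ : Matrix (Fin (D * D)) (Fin (D * D)) M)⁻¹ = A at k
  obtain ⟨w, -, hw⟩ := exl [] (D * D) (fun a (v : List K) => ∀ p : a < D * D,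
    AdjoinRoot.mk H (pl v) = ρ (A ⟨m, hm⟩ ⟨a, p⟩)) fun a p => by
      obtain ⟨v, e⟩ := S (A ⟨m, hm⟩ ⟨a, p⟩)
      obtain ⟨v, e'⟩ := pl_surj (pm K v)
      exact ⟨v, fun _ => by rw [e', ← e, T, pm]⟩
  refine ⟨w, fun n hn => ?_⟩
  have lt : ∀ a, dg l.length x a < l.length := fun a => Nat.mod_lt _ (by
    have := Nat.pos_of_mul_pos_left (Nat.zero_lt_of_lt hn)
    omega)
  suffices H ∣ _ - C (if m = n then 1 else 0) by
    obtain ⟨q, e⟩ := this
    obtain ⟨q, rfl⟩ := pl_surj q
    exact ⟨q, (eq_add_of_sub_eq' e).trans (by rw [mul_comm])⟩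
  have := congrArg ρ (congrFun (congrFun k ⟨m, hm⟩) ⟨n, hn⟩)
  rw [← AdjoinRoot.mk_eq_mk, map_sum, sum_range]
  simp only [Matrix.mul_apply, map_sum, map_mul, map_pow, Matrix.of_apply, Matrix.one_apply,
    Fin.mk.injEq] at this
  convert this using 2
  · rw [map_mul, map_mul, map_pow, map_pow, hw _ (Fin.is_lt _), T1 _ (lt _), pm, pm, ← map_comp,
      ← T, aeval_comp, r2 _ (lt _)]
  · split_ifs <;> simp

end Pool.Agent.H.MP_fdcf9c_lc
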