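import Pool.Agent.H.MP_fdcf9c_lc.C

set_option autoImplicit false
set_option linter.unusedSectionVars false

namespace Pool.Agent.H.MP_fdcf9c_lc

open Pool.Agent.Lib.helper21.PR Finset Polynomial Filter

variable {F K : Type} [Field F] [Field K] [Algebra F K]

theorem powInd {a : K} {i D : ℕ} (h : ∀ p : F[X], p.degree < (i * i : ℕ) → aeval a p = 0 → p = 0)
    (l : D ≤ i) : Ind F D a (a ^ i) := fun s p hs e d hd => by
  classical
  have b : ∀ d ∈ s, d 0 + i * d 1 < i * i := fun d hd => by
    have := Nat.mul_le_mul_left i (Nat.succ_le_of_lt ((hs d hd).2.trans_le l))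
    have := (hs d hd).1
    rw [Nat.mul_succ] at *
    omega
  have md : ∀ d ∈ s, (d 0 + i * d 1) % i = d 0 ∧ (d 0 + i * d 1) / i = d 1 := fun d hd => by
    have := (hs d hd).1.trans_le l
    simp [Nat.add_mul_div_left _ _ (by omega : 0 < i), Nat.mod_eq_of_lt this, Nat.div_eq_of_lt this]
  have := congrArg (coeff · (d 0 + i * d 1)) (h (∑ d ∈ s, C (p d) * X ^ (d 0 + i * d 1))
    ((degree_sum_le _ _).trans_lt ((Finset.sup_lt_iff (WithBot.bot_lt_coe _)).2 fun d l =>
      (degree_C_mul_X_pow_le _ _).trans_lt (by exact_mod_cast b d l)))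
    (by simpa [pow_add, pow_mul] using e))
  simp only [finsetSum_coeff, coeff_C_mul_X_pow, coeff_zero] at this
  rwa [sum_eq_single d (fun d' hd' n => if_neg fun e => n (by
    ext j
    fin_cases j
    exacts [by simpa [← e, md d hd] using (md d' hd').1.symm,
      by simpa [← e, md d hd] using (md d' hd').2.symm])) (by simp [hd]), if_pos rfl] at this

variable {α : Type} [Primcodable α] [Primcodable F] [Primcodable K] [CR K]

@[fun_prop] theorem p_dg {a b c : α → ℕ} (ha : Primrec a) (hb : Primrec b) (hc : Primrec c) :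
    Primrec fun x => dg (a x) (b x) (c x) := by
  unfold dg
  fun_prop

theorem ppl {l : α → List K} (h : Primrec l) : CP fun a => pl (l a) :=
  psum (by fun_prop) (pmul (pC (c_prim (by fun_prop))) (ppow (by fun_prop) pX))

theorem ppm (hΨ : Computable (algebraMap F K)) {l : α → List F} (h : Primrec l) :
    CP fun a => pm K (l a) := by
  simp only [pm, pl, Polynomial.map_sum, Polynomial.map_mul, map_C, Polynomial.map_pow, map_X]
  exact psum (by fun_prop) (pmul (pC (hΨ.comp (c_prim (by fun_prop)))) (ppow (by fun_prop) pX))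

theorem re1 [Infinite K] (hΨ : Computable (algebraMap F K)) {r : α → List (List F)}
    {w : α → List (List K)} {g h : α → List F} {D x m n : α → ℕ} (hr : Primrec r) (hw : Primrec w)
    (hg : Primrec g) (hh : Primrec h) (hD : Primrec D) (hx : Primrec x) (hm : Primrec m)
    (hn : Primrec n) : REPred fun p => ∃ q : List K, ∑ a ∈ range (D p * D p),
      pl ((w p).getD a []) * (pm K ((r p).getD (dg (r p).length (x p) a) []) ^ (n p % D p) *
        ((pm K (g p)).comp (pm K ((r p).getD (dg (r p).length (x p) a) []))) ^ (n p / D p)) =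
          C (if m p = n p then 1 else 0) + pl q * (X ^ (h p).length + pm K (h p)) := by
  refine rex (peq (psum (c_prim ?_) (pmul (ppl ?_) (pmul (ppow (c_prim ?_) (ppm hΨ ?_))
    (ppow (c_prim ?_) (pcomp (ppm hΨ ?_) (ppm hΨ ?_)))))) (padd (pC (c_prim ?_)) (pmul (ppl ?_)
      (padd (ppow (c_prim ?_) pX) (ppm hΨ ?_))))) <;> fun_prop

theorem re2 [Infinite K] (hΨ : Computable (algebraMap F K)) {r : α → List (List F)}
    {g h : α → List F} {D x : α → ℕ} (hr : Primrec r)
    (hg : Primrec g) (hh : Primrec h) (hD : Primrec D) (hx : Primrec x) :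
    REPred fun p => (∃ a, a < D p * D p ∧ ∃ a', a' < D p * D p ∧ a ≠ a' ∧
      dg (r p).length (x p) a = dg (r p).length (x p) a') ∨ ∀ m < D p * D p,
      ∃ w : List (List K), ∀ n < D p * D p, ∃ q : List K, ∑ a ∈ range (D p * D p),
      pl (w.getD a []) * (pm K ((r p).getD (dg (r p).length (x p) a) []) ^ (n % D p) *
        ((pm K (g p)).comp (pm K ((r p).getD (dg (r p).length (x p) a) []))) ^ (n / D p)) =
          C (if m = n then 1 else 0) + pl q * (X ^ (h p).length + pm K (h p)) := by
  refine ror (rex (rand (rprim ?_) (rex (rprim ?_)))) (rball (rex (rball (re1 hΨ ?_ ?_ ?_ ?_ ?_ ?_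
    ?_ ?_) (c_prim ?_))) (c_prim ?_)) <;> fun_prop

theorem reQ [Infinite K] (hΨ : Computable (algebraMap F K)) {u : ℕ → K} (hu : Computable u) :
    REPred fun p : ℕ × K × K => Q F u p.1 p.2.1 p.2.2 := by
  unfold Q
  refine rand (rball (rex (req (hu.comp (c_prim ?_)) (peval (c_prim ?_) (ppm hΨ ?_)))) (c_prim ?_))
    (rex (rand (req (c_prim ?_) (peval (c_prim ?_) (ppm hΨ ?_))) (rex (rand
      (rprim ?_) (rex (rand (rex (peq (pprod (c_prim ?_) (psub (pC (c_prim ?_))
        (ppm hΨ ?_))) (pmul (ppl ?_) (padd (ppow (c_prim ?_) pX) (ppm hΨ ?_)))))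
          (rball (rball (re2 hΨ ?_ ?_ ?_ ?_ ?_) (c_prim ?_)) (c_prim ?_)))))))) <;> fun_prop

theorem key (hΨ : Computable (algebraMap F K))
    (hs : Algebra.IsAlgebraic F K → Algebra.IsSeparable F K) :
    (∃ n, ∃ f : K → List F, Computable f ∧
      ∀ v, v ^ n + ∑ k ∈ range n, algebraMap F K ((f v).getD k 0) * v ^ k = 0) ∨
    ∃ a b : ℕ → K, Computable a ∧ Computable b ∧ ∀ D, ∀ᶠ i in atTop, Ind F D (a i) (b i) := by
  by_cases t : Algebra.IsAlgebraic F K
  swap
  · obtain ⟨t, ht⟩ := (Algebra.transcendental_iff_not_isAlgebraic.2 t).transcendental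
    exact .inr ⟨fun _ => t, fun i => t ^ i, .const t, by fun_prop, fun D =>
      (eventually_ge_atTop D).mono fun i => powInd fun p _ => transcendental_iff.1 ht p⟩
  have := hs t
  have I : ∀ x : K, IsIntegral F x := Algebra.IsSeparable.isIntegral F
  refine or_iff_not_imp_left.2 fun n => ?_
  have U : ∀ n, ∃ v : K, n ≤ (minpoly F v).natDegree := fun m => by
    by_contra! h
    refine n ⟨m, rsel (P := fun v (l : List F) => v ^ m + ∑ k ∈ range m,
      algebraMap F K (l.getD k 0) * v ^ k = 0) (req (c_add (by fun_prop) (c_sum (c_mul (hΨ.comp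
        (c_prim (by fun_prop))) (by fun_prop)) (by fun_prop))) (.const 0)) fun v => ?_⟩
    have k := (minpoly.monic (I v)).mul (monic_X_pow (m - (minpoly F v).natDegree))
    obtain ⟨l, a, b⟩ := pl_monic k
    rw [(minpoly.monic (I v)).natDegree_mul (monic_X_pow _), natDegree_X_pow,
      Nat.add_sub_cancel' (h v).le] at a
    exact ⟨l, by simpa [pl, a] using congrArg (aeval v) b⟩
  cases finite_or_infinite F
  · obtain ⟨B, hB⟩ := (Set.finite_range (Encodable.encode (α := F))).bddAbove
    let c := fun x k => (Encodable.decode (α := F) (dg (B + 1) x k)).getD 0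
    obtain ⟨a, a1, a2⟩ := rsel (P := fun (i : ℕ) (v : K) => ∀ x < (B + 1) ^ (i * i),
      ∑ k ∈ range (i * i), algebraMap F K (c x k) * v ^ k ≠ 0 ∨ ∀ k < i * i, c x k = 0)
      (rball (ror (rne (c_sum (c_mul (hΨ.comp (c_prim (by fun_prop))) (by fun_prop)) (by fun_prop))
        (.const 0)) (rprim (by fun_prop))) (by fun_prop)) fun i => by
      obtain ⟨v, hv⟩ := U (i * i)
      refine ⟨v, fun x _ => or_iff_not_imp_left.2 fun e k l => ?_⟩
      have : ∑ k ∈ range (i * i), C (c x k) * X ^ k = 0 := by_contra fun h =>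
        (minpoly.degree_le_of_ne_zero F v h (by simpa using e)).not_gt
          (((degree_sum_le _ _).trans_lt ((Finset.sup_lt_iff (WithBot.bot_lt_coe _)).2 fun d l =>
            (degree_C_mul_X_pow_le _ _).trans_lt (WithBot.coe_lt_coe.2 (mem_range.1 l)))).trans_le
            (((WithBot.coe_le_coe.2 hv)).trans_eq (degree_eq_natDegree (minpoly.ne_zero (I v))).symm))
      simpa [coeff_C_mul_X_pow, l] using congrArg (coeff · k) this
    refine ⟨a, fun i => a i ^ i, a1, by fun_prop, fun D =>
      (eventually_ge_atTop D).mono fun i => powInd fun p d e => ?_⟩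
    obtain ⟨x, x1, x2⟩ := dg_ex (N := B + 1) (n := i * i) (fun k => Encodable.encode (p.coeff k))
      fun k _ => Nat.lt_succ_of_le (hB ⟨_, rfl⟩)
    have x3 : ∀ k < i * i, c x k = p.coeff k := fun k l => by simp [c, x2 k l]
    refine by_contra fun p0 => ?_
    have d := (natDegree_lt_iff_degree_lt p0).2 d
    rcases a2 i x x1 with h | h
    · rw [aeval_eq_sum_range' d] at e
      exact h (e ▸ sum_congr rfl fun k l => by rw [x3 k (mem_range.1 l), Algebra.smul_def])
    · exact p0 (leadingCoeff_eq_zero.1 ((x3 _ d).symm.trans (h _ d)))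
  have : Infinite K := .of_injective _ (algebraMap F K).injective
  let u := fun s => (Encodable.decode (α := K) s).getD 0
  obtain ⟨f, f1, f2⟩ := rsel (P := fun i (p : K × K) => Q F u i p.1 p.2)
    (reQ hΨ (c_prim (by fun_prop))) fun i => let ⟨a, b, h⟩ := exQ (F := F) u i; ⟨(a, b), h⟩
  refine ⟨fun i => (f i).1, fun i => (f i).2, by fun_prop, by fun_prop, fun D => ?_⟩
  obtain ⟨v, hv⟩ := U (D * D)
  exact (eventually_gt_atTop (Encodable.encode v)).mono fun i l =>
    sound (f2 i) l (by simpa [u] using hv)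

end Pool.Agent.H.MP_fdcf9c_lc
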